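import Pool.Agent.Lib.MP_2f2443_an.IP.All
import Pool.Agent.Lib.MP_2f2443_an.RC.P.tp
import Pool.Agent.Lib.MP_2f2443_an.RC.P.ra
import Pool.Agent.Lib.MP_2f2443_an.RC.P.g2
import Pool.Agent.Lib.MP_2f2443_an.RC.P.g3
import Pool.Agent.Lib.MP_2f2443_an.RC.P.g4
import Pool.Agent.Lib.MP_2f2443_an.RC.P.rv
import Pool.Agent.Lib.MP_2f2443_an.RC.P.gp
import Pool.Agent.Lib.MP_2f2443_an.RC.P.fn
import Pool.Agent.Lib.MP_2f2443_an.RC.P.au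
import Pool.Agent.Lib.MP_2f2443_an.RC.P.tw
import Pool.Agent.Lib.MP_2f2443_an.RC.P.lo
import Pool.Agent.Lib.MP_2f2443_an.RC.P.bo
import Pool.Agent.Lib.MP_2f2443_an.RC.P.ty
import Pool.Agent.Lib.MP_2f2443_an.RC.P.cm
import Pool.Agent.Lib.MP_2f2443_an.RC.P.h1
import Pool.Agent.Lib.MP_2f2443_an.RC.P.eh
import Pool.Agent.Lib.MP_2f2443_an.RC.P.ep
import Pool.Agent.Lib.MP_2f2443_an.RC.P.hy
import Pool.Agent.Lib.MP_2f2443_an.RC.P.c0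
import Pool.Agent.Lib.MP_2f2443_an.RC.P.c1
import Pool.Agent.Lib.MP_2f2443_an.RC.P.c2
import Pool.Agent.Lib.MP_2f2443_an.RC.P.c3
import Pool.Agent.Lib.MP_2f2443_an.RC.P.q2
import Pool.Agent.Lib.MP_2f2443_an.RC.P.mo
import Pool.Agent.Lib.MP_2f2443_an.RC.P.p0
import Pool.Agent.Lib.MP_2f2443_an.RC.P.tb
import Pool.Agent.Lib.MP_2f2443_an.RC.P.wd
import Pool.Agent.Lib.MP_2f2443_an.RC.P.iv
import Pool.Agent.Lib.MP_2f2443_an.RC.P.gt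
import Pool.Agent.Lib.MP_2f2443_an.RC.P.vi
import Pool.Agent.Lib.MP_2f2443_an.RC.P.cv
import Pool.Agent.Lib.MP_2f2443_an.RC.P.ic
import Pool.Agent.Lib.MP_2f2443_an.RC.P.fa
import Pool.Agent.Lib.MP_2f2443_an.RC.P.pa
import Pool.Agent.Lib.MP_2f2443_an.RC.P.U

/-!
# MP_2f2443_an, project RC: assembly
-/

set_option autoImplicit false

namespace Pool.Agent.MP_2f2443_an.RC

open Filter Topology Pool.Agent.MP_2f2443_an.IP

theorem t_ra : S_ra := p_ra p_tp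

theorem t_g4 : S_g4 := p_g4 (p_g2 t_ra) p_g3

theorem t_iv : S_iv := p_iv

theorem t_U : T_U :=
  p_U t_is p_au p_tw p_lo p_bo p_ty (p_hy p_h1 p_eh p_cm)
    (p_pa p_p0 p_tb p_wd p_iv p_gt p_ep p_fa (p_cv p_q2 p_mo p_p0 p_wd p_vi p_cm)
      (p_ic p_p0 p_wd))

theorem t_rc : T_rc := by
  intro k hk h τ hh hτ
  by_contra hirr
  rw [Irrational, not_not] at hirr
  obtain ⟨r, hr⟩ := hirr
  have hq : 0 < r.den := r.den_pos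
  have hqr : (r.den : ℝ) * τ = (r.num : ℝ) := by
    rw [← hr]
    have : (r.den : ℝ) ≠ 0 := by exact_mod_cast hq.ne'
    have h2 : (r : ℝ) = (r.num : ℝ) / (r.den : ℝ) := Rat.cast_def r
    rw [h2]
    field_simp
  have hx := (((p_or.2 h hh.cont hh.mono hh.deg).2 τ hτ).2 r.den hq r.num).2.2 hqr
  obtain ⟨h₂, p₂, a, b, hc, hab, ha, hb, hlt⟩ := p_gp t_fi p_or k hk h hh r.den hq r.num hx
  exact p_fn t_U t_g4 p_rv p_or k hk r.den hq p₂ h₂ a b hc hab ha hb hlt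

theorem t_dict : ∀ k ρ : ℝ, ρ ∈ RotSet k ↔ ∃ h, Circ k h ∧ HasRot h ρ := p_c0 p_ci p_or

theorem t_c2 : ∀ k : ℝ, k ≠ 0 →
    IsClosed (RotSet k) ∧ (∀ ρ ∈ RotSet k, Irrational ρ) ∧ IsNowhereDense (RotSet k) :=
  p_c2 t_rc p_c1 t_dict

theorem t_c3 : ∀ᶠ ρ in residual ℝ, ∀ k : ℝ, k ≠ 0 → ρ ∉ RotSet k := p_c3 t_rc p_c1 t_dict

end Pool.Agent.MP_2f2443_an.RC
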