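import Pool.Agent.Lib.MP_2f2443_an.IP.Defs

/-!
# MP_2f2443_an, project RC (no invariant circle of rational rotation number): definitions
-/

set_option autoImplicit false

namespace Pool.Agent.MP_2f2443_an.RC

open Filter Topology Pool.Agent.MP_2f2443_an.IP

/-- The map `G = f^q - (p, 0)` on `ℂ × ℂ`. -/
noncomputable def GC (k : ℝ) (q : ℕ) (p : ℤ) (P : ℂ × ℂ) : ℂ × ℂ :=
  (((SMC (k : ℂ))^[q] P).1 - (p : ℂ), ((SMC (k : ℂ))^[q] P).2)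

/-- The inverse of the lifted standard map: `(x, y) ↦ (x - y + V x, y - V x)`. -/
noncomputable def SMCi (k : ℂ) (P : ℂ × ℂ) : ℂ × ℂ := (P.1 - P.2 + VC k P.1, P.2 - VC k P.1)

/-- The inverse of `GC k q p`. -/
noncomputable def GCi (k : ℝ) (q : ℕ) (p : ℤ) (P : ℂ × ℂ) : ℂ × ℂ :=
  (SMCi (k : ℂ))^[q] (P.1 + (p : ℂ), P.2)

/-- `G` is an automorphism of `ℂ × ℂ`. -/
def Aut (G : ℂ × ℂ → ℂ × ℂ) : Prop :=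
  Differentiable ℂ G ∧ ∃ G' : ℂ × ℂ → ℂ × ℂ, Differentiable ℂ G' ∧
    (∀ z, G' (G z) = z) ∧ ∀ z, G (G' z) = z

/-- `φ` is an entire injective immersion `ℂ → ℂ × ℂ`. -/
def EII (φ : ℂ → ℂ × ℂ) : Prop :=
  Differentiable ℂ φ ∧ Function.Injective φ ∧ ∀ t, deriv φ t ≠ 0

/-- `φ` parametrises an unstable curve of `G`: either `φ (λ t) = G (φ t)` with `λ > 1` (hyperbolic), or
`φ (t + 1) = G (φ t)` and `φ` is bounded on the left half-plane (parabolic). -/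
def UPar (G : ℂ × ℂ → ℂ × ℂ) (φ : ℂ → ℂ × ℂ) : Prop :=
  EII φ ∧ ((∃ l : ℝ, 1 < l ∧ ∀ t, φ (l * t) = G (φ t)) ∨
    ((∀ t, φ (t + 1) = G (φ t)) ∧ ∃ M : ℝ, ∀ t : ℂ, t.re ≤ 0 → ‖φ t‖ ≤ M))

/-- The bidisc `|x| < δ`, `|u| < δ`. -/
def bid (δ : ℝ) : Set (ℂ × ℂ) := {z | ‖z.1‖ < δ ∧ ‖z.2‖ < δ}

/-- Local coordinates `(x, u)` at a fixed point `P = Ψ (0, 0)` of `G`: `a + x` is the first coordinate of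
the point `z = Ψ (x, u)`, `a + x - u` is the first coordinate of `G⁻¹ z`, and
`a + x + R (x, u)` is the first coordinate of `G z`. -/
structure Loc (G : ℂ × ℂ → ℂ × ℂ) (a δ C : ℝ) (R : ℂ × ℂ → ℂ) (Ψ : ℂ × ℂ → ℂ × ℂ) : Prop where
  aut : Aut G
  dpos : 0 < δ
  cpos : 0 < C
  holR : DifferentiableOn ℂ R (bid δ)
  holP : DifferentiableOn ℂ Ψ (bid δ)
  fst : ∀ z ∈ bid δ, (Ψ z).1 = a + z.1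
  fstG : ∀ z ∈ bid δ, (G (Ψ z)).1 = a + z.1 + R z
  inj : Set.InjOn Ψ (bid δ)
  eqn : ∀ z ∈ bid δ, (z.1 + R z, R z) ∈ bid δ → G (Ψ z) = Ψ (z.1 + R z, R z)
  zero : R (0, 0) = 0
  est : ∀ z ∈ bid δ, ‖R z - z.2 - R (z.1, 0)‖ ≤ C * ‖z.2‖ * (‖z.2‖ + ‖R (z.1, 0)‖)
  lip : ∀ x u v : ℂ, (x, u) ∈ bid δ → (x, v) ∈ bid δ →
    ‖R (x, u) - R (x, v) - (u - v)‖ ≤ 1 / 2 * ‖u - v‖
  real : ∀ x u : ℝ, ((x : ℂ), (u : ℂ)) ∈ bid δ → (R ((x : ℂ), (u : ℂ))).im = 0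

/-- A real backward orbit: `ξ 0 > ξ 1 > …` tends to `0`, and `ξ j = ξ (j+1) + R (ξ (j+1), ξ (j+1) - ξ (j+2))`. -/
def BO (R : ℂ × ℂ → ℂ) (ξ : ℕ → ℝ) : Prop :=
  (∀ j, 0 < ξ (j + 1) ∧ ξ (j + 1) < ξ j) ∧ Tendsto ξ atTop (𝓝 0) ∧
    ∀ j, (ξ j : ℂ) = ξ (j + 1) + R ((ξ (j + 1) : ℂ), ((ξ (j + 1) - ξ (j + 2) : ℝ) : ℂ))

/-! ### the parabolic case -/

/-- The domain `{w | Re w + C < |Im w|}`, the complement of a closed quadrant-shaped cone. -/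
def Wd (C : ℝ) : Set ℂ := {w | w.re + C < |w.im|}

/-- `ν = (m - 1)/2`. -/
noncomputable def nu (m : ℕ) : ℝ := ((m : ℝ) - 1) / 2

/-- `c = ν √(2κ/(m+1))`. -/
noncomputable def cc (m : ℕ) (κ : ℝ) : ℝ := nu m * Real.sqrt (2 * κ / (m + 1))

/-- `χ(w) = (c (-w))^(-1/ν)`, the solution of `dx/dw = √(2κ/(m+1)) x^((m+1)/2)`. -/
noncomputable def chi (m : ℕ) (κ : ℝ) (w : ℂ) : ℂ :=
  Complex.exp (-(1 / (nu m : ℂ)) * Complex.log ((cc m κ : ℂ) * -w))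

/-- `ω = χ'`, `ω(w) = χ(w) / (ν (-w))`. -/
noncomputable def om (m : ℕ) (κ : ℝ) (w : ℂ) : ℂ := chi m κ w / ((nu m : ℂ) * -w)

/-- The parabolic type: `R (x, 0) = κ x^m + O(x^(m+1))`, `m ≥ 2`, `κ > 0`. -/
def KPar (R : ℂ × ℂ → ℂ) (δ C : ℝ) (m : ℕ) (κ : ℝ) : Prop :=
  2 ≤ m ∧ 0 < κ ∧ ∀ x : ℂ, ‖x‖ < δ → ‖R (x, 0) - κ * x ^ m‖ ≤ C * ‖x‖ ^ (m + 1)

/-- The map in the coordinates `(w, s)`, `x = χ(w)`, `u = ω(w) (1 + s)`: `(w, s) ↦ (W, S)`; the energy `E`.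
(Abstract form: only the estimates are kept.) -/
structure Tube (C A σ : ℝ) (o : ℂ → ℂ) (W S E : ℂ × ℂ → ℂ) : Prop where
  cpos : 1 ≤ C
  apos : 0 < A
  spos : 0 < σ
  sle : σ ≤ 1 / 2
  holW : DifferentiableOn ℂ W {z | z.1 ∈ Wd C ∧ ‖z.2‖ < 1 / 2}
  holS : DifferentiableOn ℂ S {z | z.1 ∈ Wd C ∧ ‖z.2‖ < 1 / 2}
  w1 : ∀ w s : ℂ, w ∈ Wd C → ‖s‖ < 1 / 2 → ‖W (w, s) - w - 1 - s‖ ≤ A / ‖w‖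
  s1 : ∀ w s : ℂ, w ∈ Wd C → ‖s‖ < 1 / 2 → ‖S (w, s) - s‖ ≤ A / ‖w‖
  e1 : ∀ w s : ℂ, w ∈ Wd C → ‖s‖ < 1 / 2 → W (w, s) ∈ Wd C → ‖S (w, s)‖ < 1 / 2 →
    ‖E (W (w, s), S (w, s)) - E (w, s)‖ ≤ A * ‖o w‖ ^ 2 * ‖w‖ ^ (-1 - σ)
  e2 : ∀ w s : ℂ, w ∈ Wd C → ‖s‖ < 1 / 2 →
    ‖2 * E (w, s) / o w ^ 2 - ((1 + s) ^ 2 - 1)‖ ≤ A * ‖w‖ ^ (-σ)
  o0 : ∀ w ∈ Wd C, o w ≠ 0
  o1 : ∀ w ∈ Wd C, ∀ w' ∈ Wd C, ‖w‖ / 20 ≤ ‖w'‖ → ‖o w'‖ ≤ A * ‖o w‖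
  real : ∀ w s : ℝ, (w : ℂ) ∈ Wd C → |s| < 1 / 2 →
    (W ((w : ℂ), (s : ℂ))).im = 0 ∧ (S ((w : ℂ), (s : ℂ))).im = 0

/-- The iterated graph transform of the curve `s = 0`. -/
structure GT (C M σ : ℝ) (W S : ℂ × ℂ → ℂ) (s B : ℕ → ℂ → ℂ) : Prop where
  zero : ∀ w, s 0 w = 0
  hol : ∀ n, DifferentiableOn ℂ (s n) (Wd C)
  bd : ∀ n, ∀ w ∈ Wd C, ‖s n w‖ ≤ M * ‖w‖ ^ (-σ) ∧ ‖s n w‖ ≤ 1 / 8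
  mem : ∀ n, ∀ w ∈ Wd C, B n w ∈ Wd C ∧ ‖B n w - (w - 1)‖ ≤ 1 / 4
  eqW : ∀ n, ∀ w ∈ Wd C, W (B n w, s n (B n w)) = w
  eqS : ∀ n, ∀ w ∈ Wd C, S (B n w, s n (B n w)) = s (n + 1) w
  real : ∀ n, ∀ w : ℝ, (w : ℂ) ∈ Wd C → (s n w).im = 0 ∧ (B n w).im = 0

end Pool.Agent.MP_2f2443_an.RC
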