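import Pool.Agent.Lib.MP_2f2443_an.RC.Defs
import Pool.Agent.Lib.MP_2f2443_an.IP.Stm

/-!
# MP_2f2443_an, project RC: statements, parts G (curves which share an arc), F (final contradiction),
L (local coordinates), H (hyperbolic endpoints), C (limits of circles)
-/

set_option autoImplicit false

namespace Pool.Agent.MP_2f2443_an.RC

open Filter Topology Pool.Agent.MP_2f2443_an.IP

/-! ## Part G: two entire curves which share an arc -/

/-- **tp** (real trigonometric polynomials are dense).  PROOF.  Stone-Weierstrass, e.g.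
`span_fourier_closure_eq_top` or density of the trigonometric polynomials on `Circle`/`AddCircle`: the
real part of a trigonometric polynomial `∑ a_n e^{inθ}` is the real part of a polynomial in
`(z - c)/ρ` on the circle (replace `a_{-n} e^{-inθ}` by its conjugate `conj(a_{-n}) e^{inθ}`). -/
def S_tp : Prop := ∀ (c : ℂ) (ρ : ℝ), 0 < ρ → ∀ u : ℂ → ℝ, ContinuousOn u (Metric.sphere c ρ) →
  ∀ ε > 0, ∃ P : ℂ → ℂ, Differentiable ℂ P ∧ ∀ z ∈ Metric.sphere c ρ, |u z - (P z).re| ≤ ε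

/-- **ra** (Radó's theorem).
PROOF.  Let `Z = {f = 0}`, and let `D` be an open disc with centre `c`; show that `f` is
differentiable on `D`; we may assume `D \ Z ≠ ∅`.
(1) If `g` is continuous on the closed disc and differentiable on `D \ Z` then
`|g z| ≤ m := max_{∂D} |g|` for `z ∈ D \ Z`: for `n ≥ 1` the function `g^n f` is continuous on the
closure of `D \ Z`, differentiable on `D \ Z`, and its modulus is at most `m^n F`, `F = max |f|`, on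
the frontier, which is contained in `∂D ∪ Z`; so `|g z|^n |f z| ≤ m^n F` by the maximum principle;
take `n`-th roots.
(2) By `S_tp` there are entire `P_n` with `|Re f - Re P_n| ≤ 1/n` on `∂D`.  (1) for
`exp (±(f - P_n))` gives `|Re f - Re P_n| ≤ 1/n` on `D \ Z`.  The maximum principle for
`exp (±(P_n - P_m))` gives `|Re P_n - Re P_m| ≤ 2/min(n,m)` on `D`.  Subtract constants `i Im P_n(c)`.
By Borel-Carathéodory (`Complex.borelCaratheodory`) `P_n` converges locally uniformly on `D` to a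
holomorphic `F`, and `Re f = Re F` on `D \ Z`.
(3) On `D \ Z` the function `f - F` is holomorphic with zero real part, so it is locally constant.
Let `Ω` be a connected component of `D \ Z`, `f = F + b` on `Ω`, `b` constant.  Frontier points of
`Ω` in `D` are in `Z`, so there `F = -b` by continuity.  If `F` is constant on `D`: `f` is a nonzero
constant on `Ω`, so there are no frontier points in `D`, `Ω = D` (connected), done.  If `F` is not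
constant: `N = {z ∈ D | F z = -b}` is discrete and closed in `D`, `D \ N` is connected, `Ω \ N` is open
and closed in `D \ N`, so `D \ N ⊆ Ω`; `f = F + b` on `D` by continuity, so `f` is differentiable.
(Other proofs are welcome.) -/
def S_ra : Prop := ∀ f : ℂ → ℂ, Continuous f → DifferentiableOn ℂ f {z | f z ≠ 0} →
  Differentiable ℂ f

/-- **g2** (an injective holomorphic function which tends to infinity at the frontier of its open
domain).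
PROOF.  Let `t₁ ∈ Ω`, `c₁ = τ t₁`; `τ' t₁ ≠ 0` as `τ` is injective on `Ω`.  Let
`χ t = (t - t₁)/(τ t - c₁)` for `t ∈ Ω \ {t₁}`, `χ t₁ = 1/τ'(t₁)`, `χ = 0` off `Ω`.  `χ` is continuous
on `ℂ` (at `t₁`: removable; at frontier points `|τ| → ∞`), holomorphic on `Ω`, and `≠ 0` exactly on
`Ω`.  By `S_ra`, `χ` is entire.  Choose `r > 0` with `closedBall t₁ r ⊆ Ω` and `ε > 0` with
`ball c₁ ε ⊆ τ (ball t₁ r)` (open mapping).  By injectivity `|τ t - c₁| ≥ ε` for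
`t ∈ Ω \ ball t₁ r`, so `|χ t| ≤ |t - t₁|/ε` for `|t - t₁| ≥ r`.  Hence `χ` is a polynomial of degree
at most one (Cauchy estimates / Liouville): `χ t = A + B (t - t₁)` with `A = 1/τ'(t₁) ≠ 0`.  If
`B = 0`: `Ω = ℂ` and `τ t = c₁ + (t - t₁)/A`.  If `B ≠ 0`: `Ω = ℂ \ {t₁ - A/B}` and
`τ t = c₁ + (t - t₁)/(A + B (t - t₁))` is bounded for large `|t|`. -/
def S_g2 : Prop := ∀ (Ω : Set ℂ) (τ : ℂ → ℂ), IsOpen Ω → Ω.Nonempty → DifferentiableOn ℂ τ Ω →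
  Set.InjOn τ Ω → (∀ t₀ ∈ frontier Ω, Tendsto (fun t => ‖τ t‖) (𝓝[Ω] t₀) atTop) →
  (Ω = Set.univ ∧ ∃ α β : ℂ, α ≠ 0 ∧ ∀ t, τ t = α * t + β) ∨
    ∃ (t₀ : ℂ) (M r : ℝ), Ω = {t₀}ᶜ ∧ ∀ t, r ≤ ‖t‖ → ‖τ t‖ ≤ M

/-- **g3** (local continuation).
PROOF.  The set is closed, so `φ t₀ = ψ s₀`.  One of the two coordinates `ℓ` has `(ℓ ∘ ψ)' (s₀) ≠ 0`; let
`σ` be a holomorphic local inverse, `σ (ℓ (ψ s)) = s` for `s` near `s₀`.  Put `τ = σ ∘ ℓ ∘ φ` near `t₀`,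
`τ t₀ = s₀`, and `D t = φ t - ψ (τ t)`, holomorphic near `t₀`.  There are points `(t_n, s_n) → (t₀, s₀)`
of the set, different from `(t₀, s₀)`; then `t_n ≠ t₀` (else `ψ s_n = φ t₀ = ψ s₀`, `s_n = s₀`), and
`τ t_n = σ (ℓ (ψ s_n)) = s_n` for large `n`, so `D t_n = 0`.  By the identity theorem `D = 0` near
`t₀`. -/
def S_g3 : Prop := ∀ φ ψ : ℂ → ℂ × ℂ, Differentiable ℂ φ → Differentiable ℂ ψ →
  Function.Injective ψ → (∀ s, deriv ψ s ≠ 0) → ∀ t₀ s₀ : ℂ,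
  AccPt (t₀, s₀) (𝓟 {w : ℂ × ℂ | φ w.1 = ψ w.2}) →
  ∃ U ∈ 𝓝 t₀, ∃ τ : ℂ → ℂ, DifferentiableOn ℂ τ U ∧ τ t₀ = s₀ ∧ ∀ t ∈ U, φ t = ψ (τ t)

/-- **g4** (two entire injective immersed curves with an accumulation of common points differ by an
affine change of the parameter).
PROOF.  `Ω` = set of the `t` which have a neighbourhood `U` and a `τ`, holomorphic on `U`, with
`φ = ψ ∘ τ` on `U`.  Open, not empty by `S_g3`.  As `ψ` is injective, `τ t` is determined by `t`, so the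
local functions give one holomorphic `τ : Ω → ℂ`, injective on `Ω` because `φ` is.  Let
`t₀ ∈ frontier Ω`, so `t₀ ∉ Ω`.  If `|τ|` does not tend to infinity at `t₀` there are `t_n → t₀` in `Ω` with
`τ t_n → s₀`; the points `(t_n, τ t_n)`, different from `(t₀, s₀)`, show that `(t₀, s₀)` is an accumulation
point of the set, and `S_g3` gives `t₀ ∈ Ω`.  So `S_g2` applies.  Its second case: `φ t = ψ (τ t)` with
`τ t` bounded for large `|t|`, so `φ` is bounded, hence constant by Liouville, against injectivity.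
Its first case is the conclusion. -/
def S_g4 : Prop := ∀ φ ψ : ℂ → ℂ × ℂ, EII φ → EII ψ →
  (∃ w, AccPt w (𝓟 {w : ℂ × ℂ | φ w.1 = ψ w.2})) →
  ∃ α β : ℂ, α ≠ 0 ∧ ∀ t, φ t = ψ (α * t + β)

/-! ## Part F: the final contradiction -/

/-- THEOREM U (for the parts F and the assembly): unstable curves at the left end of a gap. -/
def T_U : Prop := ∀ (k : ℝ), k ≠ 0 → ∀ (q : ℕ), 0 < q → ∀ (p : ℤ) (h : ℝ → ℝ) (a d : ℝ), Circ k h →
  0 < d → h^[q] a = a + p → (∀ x, a < x → x < a + d → x + p < h^[q] x) →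
  ∃ φ, UPar (GC k q p) φ ∧ ∃ d' > 0, ∀ x : ℝ, a < x → x < a + d' →
    ((x : ℂ), ((h x - x : ℝ) : ℂ)) ∈ Set.range φ

/-- **rv** (time reversal).
PROOF.  `h` is a homeomorphism of `ℝ`; `h' x = -h⁻¹ (-x)`.  `h' (-h x) = -x`; by induction the
iterates.  The equation `h' (h' x) = 2 h' x - x + V (h' x)` is the equation of `h` at `h⁻¹ (h⁻¹ (-x))`
(`V` is odd).  The last line: `h' (-x) + x = x - h⁻¹ x`, and the equation of `h` at `h⁻¹ x` gives
`h x = 2x - h⁻¹ x + V x`. -/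
def S_rv : Prop := ∀ (k : ℝ) (h : ℝ → ℝ), Circ k h → ∃ h' : ℝ → ℝ, Circ k h' ∧
  (∀ (n : ℕ) (x : ℝ), h'^[n] (-h^[n] x) = -x) ∧ ∀ x, h' (-x) - -x = (h x - x) - VR k x

/-- **gp** (a gap).
PROOF.  `g = h^q - p` is continuous, strictly increasing, commutes with `+1`, and has a fixed point.  Not
all points of `[0, 1]` are fixed: otherwise (`S_or`) `f^q (x, h x - x) = (x + p, h x - x)` for all
`x ∈ [0, 1]`, infinitely many points in a bounded set, against `T_fi`.  So there are adjacent fixed points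
`a < b` of `g` (the set of fixed points is closed and invariant under `+1`) and by the intermediate value
theorem `g > id` on `(a, b)` or `g < id` on `(a, b)`.  In the first case take `h₂ = h`, `p₂ = p`.  In the
second case take `h₂ x = -h (-x)`, which is again `Circ k` (`V` is odd), `p₂ = -p`, and the interval
`(-b, -a)`. -/
def S_gp : Prop := T_fi → S_or → ∀ (k : ℝ), k ≠ 0 → ∀ (h : ℝ → ℝ), Circ k h → ∀ (q : ℕ), 0 < q →
  ∀ p : ℤ, (∃ x, h^[q] x = x + p) →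
  ∃ (h₂ : ℝ → ℝ) (p₂ : ℤ) (a b : ℝ), Circ k h₂ ∧ a < b ∧ h₂^[q] a = a + p₂ ∧ h₂^[q] b = b + p₂ ∧
    ∀ x, a < x → x < b → x + p₂ < h₂^[q] x

/-- **fn** (no gap).
PROOF.  Write `G = GC k q p`, `J (x, y) = (-x, y - V x)` (complex).  `J ∘ J = id`, `SMC ∘ J ∘ SMC = J`
(check: `SMC J (x + y, y + V(x+y)) = SMC (-x-y, y) = (-x, y + V(-x))`), and `J` maps
`P + (p, 0)` to `J P - (p, 0)` (`V` has period `1`), so `G ∘ J ∘ G = J`.
`T_U` for `h` at `a` (`d = b - a`) gives `φ`.  Let `h'` be as in `S_rv`: `h'^q (-b) = -b + p` and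
`x + p < h'^q x` for `-b < x < -a` (write `x = -h^q z + p`, `z ∈ (a, b)`: `h'^q x = -z + p`).  `T_U`
for `h'` at `-b` gives `φ'`; put `ψ = J ∘ φ'`, again an entire injective immersion (`J` is an
automorphism), and `G (ψ (l' t)) = ψ t` or `G (ψ (t + 1)) = ψ t`.
All points `z_x = (x, h x - x)`, `a < x < b`, are in `range φ`: `G z_x = z_{g x}` with `g = h^q - p`
(`S_or`), `G (range φ) ⊆ range φ`, and `x = g^n x'` with `x'` close to `a`.  In the same way all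
`(x, h' x - x)`, `-b < x < -a`, are in `range φ'`, and `J` maps `(-x, h' (-x) + x)` to `z_x`
(last part of `S_rv`, `J² = id`), so `z_x ∈ range ψ`.
So the set `{w | φ w.1 = ψ w.2}` contains a point `(t_x, s_x)` for every `x ∈ (a, b)`, different ones for
different `x`; it is uncountable, so it has an accumulation point (a set without accumulation points in a
second countable space is countable).  By `S_g4`: `φ t = ψ (α t + β)`.
HH: `φ (l t) = G (φ t)`, `G (ψ (l' t)) = ψ t`: `ψ (α l t + β) = G (ψ (α t + β)) = ψ ((α t + β)/l')`,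
so `α l t + β = (α t + β)/l'` for all `t`: `α (l - 1/l') = 0`, impossible.
HP: `φ (l t) = G (φ t)`, `G (ψ (t + 1)) = ψ t`: `α l t + β = α t + β - 1` for all `t`; `t = 0` is
impossible.
PH: `α (t + 1) + β = (α t + β)/l'` for all `t`: `α (1 - 1/l') = 0`, impossible.
PP: `α (t + 1) + β = α t + β - 1`: `α = -1`, `φ t = ψ (β - t)`; `φ` is bounded on `Re t ≤ 0`, `ψ` on
`Re s ≤ 0` (`J` maps bounded sets to bounded sets), so `φ` is bounded on `Re t ≥ Re β`; on the strip between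
use `φ (t + N) = G^N (φ t)`.  So `φ` is bounded, constant by Liouville: contradiction. -/
def S_fn : Prop := T_U → S_g4 → S_rv → S_or → ∀ (k : ℝ), k ≠ 0 → ∀ (q : ℕ), 0 < q → ∀ (p : ℤ)
  (h : ℝ → ℝ) (a b : ℝ), Circ k h → a < b → h^[q] a = a + p → h^[q] b = b + p →
  (∀ x, a < x → x < b → x + p < h^[q] x) → False

/-! ## Part L: local coordinates at a periodic point of a circle -/

/-- **au** (elementary facts on `GC`; the determinant is `1` because `D(SMC) = ((1, 1), (V', 1 + V'))`). -/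
def S_au : Prop := ∀ (k : ℝ) (q : ℕ) (p : ℤ), Differentiable ℂ (GC k q p) ∧
  Differentiable ℂ (GCi k q p) ∧ (∀ z, GCi k q p (GC k q p z) = z) ∧
  (∀ z, GC k q p (GCi k q p z) = z) ∧ Aut (GC k q p) ∧
  (∀ z, LinearMap.det ((fderiv ℂ (GC k q p) z : ℂ × ℂ →L[ℂ] ℂ × ℂ) : ℂ × ℂ →ₗ[ℂ] ℂ × ℂ) = 1) ∧
  (∀ x y : ℝ, (GC k q p ((x : ℂ), (y : ℂ))).1.im = 0 ∧ (GC k q p ((x : ℂ), (y : ℂ))).2.im = 0) ∧
  (∀ x y : ℝ, (GCi k q p ((x : ℂ), (y : ℂ))).1.im = 0 ∧ (GCi k q p ((x : ℂ), (y : ℂ))).2.im = 0) ∧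
  ∀ h : ℝ → ℝ, Circ k h → ∀ x x' : ℝ, h^[q] x = x' + p →
    GC k q p ((x : ℂ), ((h x - x : ℝ) : ℂ)) = ((x' : ℂ), ((h x' - x' : ℝ) : ℂ)) ∧
    GCi k q p ((x' : ℂ), ((h x' - x' : ℝ) : ℂ)) = ((x : ℂ), ((h x - x : ℝ) : ℂ))

/-- **tw** (twist at a point of a circle).
PROOF.  `h` is Lipschitz with the constant `L = 2 + |k|` (for `z ≤ z'`:
`h z' - h z = 2(z' - z) + V z' - V z - (h⁻¹ z' - h⁻¹ z) ≤ L (z' - z)`), so
`h⁻¹ z' - h⁻¹ z ≥ (z' - z)/L`.  Let `x = a + p`, `y = h x - x + ε`, `ε > 0` and let `(x_{-n}, y_{-n})` be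
the backward orbit, `x_{-1} = x - y + V x = h⁻¹ x - ε`.  Inductively `x_{-n} < h⁻ⁿ x` and
`x_{-n-1} < h⁻¹ x_{-n}` (a point above the circle stays above: with `X = x_{-n}`, `Y = x_{-n-1}`,
`Y < h⁻¹ X`, `x_{-n-2} = 2Y + V Y - X = h⁻¹ Y + h Y - X < h⁻¹ Y`), so
`x_{-n-1} < h⁻¹ x_{-n} ≤ h⁻¹ (h⁻ⁿ x) - (h⁻ⁿ x - x_{-n})/L`, and `x_{-q} ≤ h⁻^q x - ε/L^{q-1}`.  So the
derivative of `y ↦ x_{-q}` at `h x - x` is at most `-1/L^{q-1} < 0`; it is the given complex partial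
derivative (restrict to real `y`). -/
def S_tw : Prop := ∀ (k : ℝ) (h : ℝ → ℝ), Circ k h → ∀ (q : ℕ), 0 < q → ∀ (p : ℤ) (a : ℝ),
  h^[q] a = a + p →
  (fderiv ℂ (GCi k q p) ((a : ℂ), ((h a - a : ℝ) : ℂ)) (0, 1)).1 ≠ 0

/-- **lo** (local coordinates).
PROOF.  `Θ z = (z.1 - a, z.1 - (G' z).1)` has at `P` an invertible derivative (`dx ↦ dx`, and
`∂_y (G')_1 ≠ 0`); let `Ψ` be its local inverse (inverse function theorem, holomorphic) on a small bidisc.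
Put `R z = (G (Ψ z)).1 - (Ψ z).1`.  `fst`, `inj`, `holP`, `holR`, `zero`, `fstG` are clear.  `Θ (G (Ψ z))`:
first coordinate `x + R z`, second `(G (Ψ z)).1 - (Ψ z).1 = R z`; so `G (Ψ z) = Ψ (x + R z, R z)` if both
points are near `P`; for the points of a smaller bidisc with `(x + R, R)` in it this is `eqn`.
Determinants: `det D(G ∘ Ψ)(z) = det DΨ (z)` and `det D(Ψ ∘ (x + R, R))(z) = det DΨ(x + R, R) · ∂_u R (z)`
(as `det ((1 + R_x, R_u), (R_x, R_u)) = R_u`); `det DΨ = ∂_u Ψ_2 =: Y`, holomorphic and nonzero.  So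
`∂_u R (x, u) = Y (x, u)/Y (x + R, R)`, and `|∂_u R - 1| ≤ C' (|R| + |u|)` near `0`; this gives `lip`
after shrinking `δ` (integrate over the segment from `v` to `u`), then `|R (x, v)| ≤ |R (x, 0)| + 2|v|`, and
integrating from `0` to `u`: `est`.  `real`: `Ψ` maps real points to real points (the real local inverse;
or `Ψ (conj z) = conj (Ψ z)` by uniqueness, as `G, G'` commute with the conjugation because they are entire
and real on `ℝ × ℝ`). -/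
def S_lo : Prop := ∀ (G G' : ℂ × ℂ → ℂ × ℂ) (a b : ℝ), Differentiable ℂ G → Differentiable ℂ G' →
  (∀ z, G' (G z) = z) → (∀ z, G (G' z) = z) →
  (∀ z, LinearMap.det ((fderiv ℂ G z : ℂ × ℂ →L[ℂ] ℂ × ℂ) : ℂ × ℂ →ₗ[ℂ] ℂ × ℂ) = 1) →
  (∀ x y : ℝ, (G ((x : ℂ), (y : ℂ))).1.im = 0 ∧ (G ((x : ℂ), (y : ℂ))).2.im = 0) →
  (∀ x y : ℝ, (G' ((x : ℂ), (y : ℂ))).1.im = 0 ∧ (G' ((x : ℂ), (y : ℂ))).2.im = 0) →
  G ((a : ℂ), (b : ℂ)) = ((a : ℂ), (b : ℂ)) →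
  (fderiv ℂ G' ((a : ℂ), (b : ℂ)) (0, 1)).1 ≠ 0 →
  ∃ (δ C : ℝ) (R : ℂ × ℂ → ℂ) (Ψ : ℂ × ℂ → ℂ × ℂ), Loc G a δ C R Ψ ∧
    ∃ ε > 0, ∀ z : ℂ × ℂ, ‖z - ((a : ℂ), (b : ℂ))‖ < ε →
      (z.1 - a, z.1 - (G' z).1) ∈ bid δ ∧ Ψ (z.1 - a, z.1 - (G' z).1) = z

/-- **bo** (the circle gives backward orbits).
PROOF.  `g = h^q - p` is an increasing homeomorphism with `g a = a`, `g x > x` on `(a, a + d)`.  For
`0 < x < d'` let `ξ j = g^{-j} (a + x) - a`: positive, strictly decreasing, its limit is a fixed point of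
`g` in `[a, a + x)`, so it is `0`.  The point `z_j` of the circle over `a + ξ j` has
`G' z_j = z_{j+1}` (`S_au`), so its coordinates are `(ξ j, ξ j - ξ (j+1))`; all `z_j` are near `P` if `d'`
is small (`h` is continuous).  `Loc.fstG` at `(ξ (j+1), ξ (j+1) - ξ (j+2))`:
`a + ξ j = (G z_{j+1}).1 = a + ξ (j+1) + R (…)`. -/
def S_bo : Prop := S_au → ∀ (k : ℝ) (h : ℝ → ℝ), Circ k h → ∀ (q : ℕ), 0 < q → ∀ (p : ℤ) (a d : ℝ),
  0 < d → h^[q] a = a + p → (∀ x, a < x → x < a + d → x + p < h^[q] x) →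
  ∀ (δ C : ℝ) (R : ℂ × ℂ → ℂ) (Ψ : ℂ × ℂ → ℂ × ℂ), Loc (GC k q p) a δ C R Ψ →
  (∃ ε > 0, ∀ z : ℂ × ℂ, ‖z - ((a : ℂ), ((h a - a : ℝ) : ℂ))‖ < ε →
    (z.1 - a, z.1 - (GCi k q p z).1) ∈ bid δ ∧ Ψ (z.1 - a, z.1 - (GCi k q p z).1) = z) →
  ∃ d' > 0, ∀ x : ℝ, 0 < x → x < d' → ∃ ξ : ℕ → ℝ, BO R ξ ∧ ξ 0 = x ∧
    Ψ ((ξ 0 : ℂ), ((ξ 0 - ξ 1 : ℝ) : ℂ)) = (((a + x : ℝ) : ℂ), ((h (a + x) - (a + x) : ℝ) : ℂ))

/-- **ty** (the two types).
PROOF.  `K x = R (x, 0)` is analytic, `K 0 = 0`, not identically zero, real on the reals: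
`K x = κ x^m + O(x^(m+1))` with `m ≥ 1`, `κ ≠ 0` real.  Write `u_j = ξ j - ξ (j+1) > 0`, so
`u_j = R (ξ (j+1), u_{j+1})`; by `est`, `u_j = u_{j+1} + K (ξ (j+1)) + e_j`,
`|e_j| ≤ C u_{j+1} (u_{j+1} + |K (ξ (j+1))|)`.
`m = 1`: put `ρ_j = ξ j / ξ (j+1) > 1`.  Dividing by `ξ (j+1)`:
`ρ_j - 1 = (1 - 1/ρ_{j+1}) + κ + o(1)` as `j → ∞`.  So `ρ_j` is bounded, and as `2 - 1/ρ ≤ ρ`,
`ρ_j ≤ ρ_{j+1} + κ + o(1)`.  If `κ < 0` then `ρ_{j+1} ≥ ρ_j + |κ|/2` for large `j`: unbounded,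
contradiction.  So `κ > 0`.
`m ≥ 2`: suppose `κ < 0`.  For large `j` (`ξ j` small) `u_j - u_{j+1} ≤ C'' u_{j+1}²`.  Let
`U_j = sup_{i ≥ j} u_i` (attained, `u_i → 0`).  `u_j = ∑_{i ≥ j} (u_i - u_{i+1}) ≤ C'' ∑_{i > j} u_i² ≤
C'' U_{j+1} ξ (j+1) ≤ U_{j+1}/2` for `j ≥ j₀`.  So `U_j = U_{j+1}` for all `j ≥ j₀`, and `U_j → 0`, so
`U = 0`: contradiction.  So `κ > 0`.  Restrict `δ` and enlarge `C` to have `KPar` (and `Loc`) with the same
constants. -/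
def S_ty : Prop := ∀ (G : ℂ × ℂ → ℂ × ℂ) (a δ C : ℝ) (R : ℂ × ℂ → ℂ) (Ψ : ℂ × ℂ → ℂ × ℂ),
  Loc G a δ C R Ψ → (∃ ξ, BO R ξ) → (∃ x : ℂ, ‖x‖ < δ ∧ R (x, 0) ≠ 0) →
  (∃ κ : ℝ, 0 < κ ∧ HasDerivAt (fun x : ℂ => R (x, 0)) (κ : ℂ) 0) ∨
    ∃ (m : ℕ) (κ δ' C' : ℝ), δ' ≤ δ ∧ Loc G a δ' C' R Ψ ∧ KPar R δ' C' m κ

/-- **cm** (comparison of two real backward orbits).
PROOF.  Let `u_j = ξ j - ξ (j+1)`, `v_j = η j - η (j+1)`, both positive and `< d`.  By symmetry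
`ξ 1 ≥ η 1`, i.e. `u_0 ≤ v_0`.  By induction on `j ≤ n`: `u_j ≤ v_j` and
`ξ (j+1) - η (j+1) ≥ ξ j - η j ≥ 0`.  Step: if `u_{j+1} > v_{j+1}` then
`u_j = r (ξ (j+1)) u_{j+1} > r (ξ (j+1)) v_{j+1} ≥ r (η (j+1)) v_{j+1} = v_j ≥ u_j`.  So the gap
`ξ j - η j` does not decrease from `j = 1` to `j = n + 1`. -/
def S_cm : Prop := ∀ (r : ℝ → ℝ → ℝ) (Q : ℝ → ℝ → Prop) (d : ℝ) (n : ℕ) (ξ η : ℕ → ℝ),
  (∀ x u v, 0 < x → x < d → 0 < u → u < v → v < d → r x u < r x v) →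
  (∀ x y u, 0 < x → x ≤ y → y < d → 0 < u → u < d → Q x u → r x u ≤ r y u) →
  ξ 0 = η 0 → ξ 0 < d →
  (∀ j ≤ n, 0 < ξ (j + 1) ∧ ξ (j + 1) < ξ j ∧ 0 < η (j + 1) ∧ η (j + 1) < η j) →
  (∀ j < n, ξ j - ξ (j + 1) = r (ξ (j + 1)) (ξ (j + 1) - ξ (j + 2)) ∧
    η j - η (j + 1) = r (η (j + 1)) (η (j + 1) - η (j + 2)) ∧
    Q (ξ (j + 1)) (ξ (j + 1) - ξ (j + 2)) ∧ Q (η (j + 1)) (η (j + 1) - η (j + 2))) →
  |ξ 1 - η 1| ≤ |ξ (n + 1) - η (n + 1)|

/-! ## Part H: the hyperbolic endpoint -/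

/-- **h1** (Poincaré's parametrisation of the unstable curve).
PROOF.  The map `g (x, u) = (x + R, R)` has at `0` the derivative `((1 + κ, 1), (κ, 1))` with the eigenvectors
`(1, 1 - 1/l)` (eigenvalue `l`) and `(1, 1 - l)` (eigenvalue `1/l`).  In the linear coordinates `(ξ, η)` along
these, with the norm `max (|ξ|, |η|)`, `g = diag (l, 1/l) + O(|z|²)`.  Let `φ_0 t = t (1, 1 - 1/l)`,
`φ_{n+1} t = g (φ_n (t/l))` on `|t| ≤ ε`.  With `θ = (1 + 1/l)/2 < 1` and `ε` small: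
`|φ_n t - φ_0 t| ≤ M |t|²`, `|φ_{n+1} t - φ_n t| ≤ M θ^n |t|²` (induction: for `|D t| ≤ d |t|²` the linear
part maps it to `≤ l · d |t/l|² = d |t|²/l`, and the nonlinear part adds `O(ε) d |t|²`).  The limit `φ` is
holomorphic, `φ t = g (φ (t/l))`, `φ = (X, U)`, and `X t = X (t/l) + R (φ (t/l))`, `U t = R (φ (t/l))`, so
`U t = X t - X (t/l)`.  Real on the reals because all `φ_n` are. -/
def S_h1 : Prop := ∀ (R : ℂ × ℂ → ℂ) (δ κ l : ℝ), 0 < δ → DifferentiableOn ℂ R (bid δ) →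
  R (0, 0) = 0 → HasDerivAt (fun x : ℂ => R (x, 0)) (κ : ℂ) 0 →
  HasDerivAt (fun u : ℂ => R (0, u)) 1 0 → 1 < l → l + 1 / l = 2 + κ →
  (∀ x u : ℝ, ((x : ℂ), (u : ℂ)) ∈ bid δ → (R ((x : ℂ), (u : ℂ))).im = 0) →
  ∃ ε > 0, ∃ X : ℂ → ℂ, DifferentiableOn ℂ X (Metric.ball 0 ε) ∧ X 0 = 0 ∧ HasDerivAt X 1 0 ∧
    (∀ t ∈ Metric.ball (0 : ℂ) ε, (X t, X t - X (t / l)) ∈ bid δ ∧
      X t = X (t / l) + R (X (t / l), X (t / l) - X (t / l ^ 2))) ∧
    ∀ t : ℝ, (t : ℂ) ∈ Metric.ball (0 : ℂ) ε → (X t).im = 0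

/-- **eh** (extension, hyperbolic).
PROOF.  `φ t = G^n (φ₀ (t/l^n))` for any `n` with `|t| < ε l^n`; independent of `n`.  Entire.  Injective: if
`φ t = φ t'` take one `n` for both; `G^n` is injective, `φ₀` is injective on the ball.  Derivative: that of
`G^n` is injective (`G` has a differentiable inverse). -/
def S_eh : Prop := ∀ (G : ℂ × ℂ → ℂ × ℂ) (l ε : ℝ) (φ₀ : ℂ → ℂ × ℂ), Aut G → 1 < l → 0 < ε →
  DifferentiableOn ℂ φ₀ (Metric.ball 0 ε) → Set.InjOn φ₀ (Metric.ball 0 ε) →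
  (∀ t ∈ Metric.ball (0 : ℂ) ε, deriv φ₀ t ≠ 0) →
  (∀ t ∈ Metric.ball (0 : ℂ) ε, φ₀ t = G (φ₀ (t / l))) →
  ∃ φ, UPar G φ ∧ ∀ t ∈ Metric.ball (0 : ℂ) ε, φ t = φ₀ t

/-- **ep** (extension, parabolic).
PROOF.  `φ t = G^n (φ₀ (t - n))` for any `n > Re t + C`; independent of `n`, entire,
`φ (t + 1) = G (φ t)`.  Injective: for `t, t'` take `n` so large that `t - n`, `t' - n` are both in the
sector.  The derivative in the same way.  Bounded on `Re t ≤ 0`: `φ t = G^N (φ₀ (t - N))` with one `N`, the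
image of a bounded set under a continuous map of `ℂ × ℂ` is bounded. -/
def S_ep : Prop := ∀ (G : ℂ × ℂ → ℂ × ℂ) (C : ℝ) (φ₀ : ℂ → ℂ × ℂ), Aut G →
  DifferentiableOn ℂ φ₀ {t | t.re < -C} →
  Set.InjOn φ₀ {t | t.re < -C ∧ |t.im| < -t.re / 2} →
  (∀ t : ℂ, t.re < -C → |t.im| < -t.re / 2 → deriv φ₀ t ≠ 0) →
  (∀ t : ℂ, t.re < -C → φ₀ t = G (φ₀ (t - 1))) → (∃ M : ℝ, ∀ t : ℂ, t.re < -C → ‖φ₀ t‖ ≤ M) →
  ∃ φ, UPar G φ ∧ ∀ t : ℂ, t.re < -C → φ t = φ₀ t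

/-- **hy** (the hyperbolic endpoint).
PROOF.  `l > 1` with `l + 1/l = 2 + κ`.  `est` at `x = 0` gives `R (0, u) = u + O(u²)`.  Take `X` from `S_h1`,
`φ₀ t = Ψ (X t, X t - X (t/l))` on a small ball where `X` is injective with nonzero derivative (`X' 0 = 1`;
`(φ₀ t).1 = a + X t`).  With `z = (X (t/l), X (t/l) - X (t/l²))`, `z.1 + R z = X t` and
`R z = X t - X (t/l)`, so `eqn` gives `φ₀ t = G (φ₀ (t/l))`.  `S_eh` gives `φ`.
Let `ξ` be a backward orbit with `ξ 0 < d`, `d` small.  `X` is real and strictly increasing on `[0, ε')`, so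
`X t₀ = ξ 0` for some `t₀ ∈ (0, ε')`.  `η j = X (t₀/l^j)` is a positive decreasing sequence tending to `0`,
`η j = η (j+1) + R (η (j+1), η (j+1) - η (j+2))`.  Near `0` the real function `R` is strictly increasing in
`x` (`∂_x R (0,0) = κ > 0`; derivative continuous) and in `u` (`lip`), so `S_cm` (`Q` = True) for all `n`:
`|ξ 1 - η 1| ≤ |ξ (n+1) - η (n+1)| → 0`.  Hence `Ψ (ξ 0, ξ 0 - ξ 1) = φ₀ t₀`. -/
def S_hy : Prop := S_h1 → S_eh → S_cm → ∀ (G : ℂ × ℂ → ℂ × ℂ) (a δ C : ℝ) (R : ℂ × ℂ → ℂ)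
  (Ψ : ℂ × ℂ → ℂ × ℂ), Loc G a δ C R Ψ → ∀ κ : ℝ, 0 < κ →
  HasDerivAt (fun x : ℂ => R (x, 0)) (κ : ℂ) 0 →
  ∃ φ, UPar G φ ∧ ∃ d > 0, ∀ ξ, BO R ξ → ξ 0 < d → Ψ ((ξ 0 : ℂ), ((ξ 0 - ξ 1 : ℝ) : ℂ)) ∈ Set.range φ

/-! ## Part C: limits of circles, the set of rotation numbers -/

/-- `ρ` is the rotation number of the invariant circle `y = g x` of `f_k`. -/
def RotNum (k : ℝ) (g : ℝ → ℝ) (ρ : ℝ) : Prop :=
  ∀ x : ℝ, Tendsto (fun n : ℕ => ((SMR k)^[n] (x, g x)).1 / n) atTop (𝓝 ρ)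

/-- The set of the rotation numbers of the invariant circles of `f_k` (not reduced mod `1`). -/
def RotSet (k : ℝ) : Set ℝ := {ρ | ∃ g, IsCircle k g ∧ RotNum k g ρ}

/-- **c0** (dictionary).  PROOF.  `IsCircle` gives `Circ` (`S_ci`), the orbit is `h^n x` (`S_or`), and
`HasRot` is equivalent to the limit (existence and uniqueness of the limit, `S_or`).  Conversely `Circ k h`
gives the circle `g x = h x - x`: `SMR k (x, h x - x) = (h x, h (h x) - h x)` and `h` is onto. -/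
def S_c0 : Prop := S_ci → S_or → ∀ k ρ : ℝ, ρ ∈ RotSet k ↔ ∃ h, Circ k h ∧ HasRot h ρ

/-- **c1** (limits of circles are circles).
PROOF.  `|h_n x - x - τ_n| ≤ 1` and `h_n` is increasing and Lipschitz with the constant `2 + |k_n|` (see
`S_tw`), so by Arzelà-Ascoli (or Tychonoff and ultrafilters: pointwise limit along an ultrafilter of the
uniformly Lipschitz functions `h_n`) there is a pointwise limit `h` (along the ultrafilter), nondecreasing,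
Lipschitz, `h (x + 1) = h x + 1`; `h_n (h_n x) → h (h x)` by the uniform Lipschitz bound, so the equation
passes to the limit (`VR` is jointly continuous in `k, x`), all iterates converge, so `HasRot h τ`.  `h` is
injective: `h x = h x'` implies `x = 2 h x + V (h x) - h (h x) = x'`. -/
def S_c1 : Prop := ∀ (k : ℕ → ℝ) (h : ℕ → ℝ → ℝ) (τ : ℕ → ℝ) (k₀ τ₀ : ℝ),
  (∀ n, Circ (k n) (h n) ∧ HasRot (h n) (τ n)) → Tendsto k atTop (𝓝 k₀) → Tendsto τ atTop (𝓝 τ₀) →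
  ∃ h₀, Circ k₀ h₀ ∧ HasRot h₀ τ₀

/-- The main theorem in terms of `Circ`. -/
def T_rc : Prop := ∀ (k : ℝ), k ≠ 0 → ∀ (h : ℝ → ℝ) (τ : ℝ), Circ k h → HasRot h τ → Irrational τ

/-- **c2** (`RotSet k` is a closed nowhere dense set of irrational numbers). -/
def S_c2 : Prop := T_rc → S_c1 → (∀ k ρ : ℝ, ρ ∈ RotSet k ↔ ∃ h, Circ k h ∧ HasRot h ρ) →
  ∀ k : ℝ, k ≠ 0 → IsClosed (RotSet k) ∧ (∀ ρ ∈ RotSet k, Irrational ρ) ∧ IsNowhereDense (RotSet k)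

/-- **c3** (a residual set of rotation numbers without circles for any `k ≠ 0`).
PROOF.  For `n ≥ 1` and a rational `r` there is `ε > 0` such that no `f_k` with `1/n ≤ |k| ≤ n` has a circle
with rotation number in `(r - ε, r + ε)`: otherwise take `k_j`, `τ_j → r` and a convergent subsequence of
`k_j`; `S_c1` gives a circle with rotation number `r` and `k ≠ 0`, against `T_rc`.  The set
`O_n = ⋃_r (r - ε(n,r), r + ε(n,r))` is open and dense, `⋂_n O_n` is residual and has the property. -/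
def S_c3 : Prop := T_rc → S_c1 → (∀ k ρ : ℝ, ρ ∈ RotSet k ↔ ∃ h, Circ k h ∧ HasRot h ρ) →
  ∀ᶠ ρ in residual ℝ, ∀ k : ℝ, k ≠ 0 → ρ ∉ RotSet k

end Pool.Agent.MP_2f2443_an.RC
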