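import Pool.Agent.Lib.MP_2f2443_an.RC.StmG

/-!
# MP_2f2443_an, project RC: statements, part Q (parabolic endpoints)
-/

set_option autoImplicit false

namespace Pool.Agent.MP_2f2443_an.RC

open Filter Topology Pool.Agent.MP_2f2443_an.IP

/-- **q2** (size of the steps of a real backward orbit).
PROOF.  Notation: `K x = R (x, 0)`, `u_j = ξ j - ξ (j+1) > 0`, `x_j = ξ j`; `u_j = R (x_{j+1}, u_{j+1})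
= u_{j+1} + K (x_{j+1}) + e_{j+1}`, `|e_{j+1}| ≤ C u_{j+1}(u_{j+1} + |K (x_{j+1})|)`; for small `x`:
`κ x^m/2 ≤ K x ≤ 2κ x^m`.  Let `𝒦` be the primitive of `K` with `𝒦 0 = 0` on the reals,
`E_j = u_j²/2 - 𝒦 (x_j)`, `U = sup_{j ≥ 0} u_j` (attained, since `u_j → 0`).
Step of the energy, with `x = x_{j+1}`, `u = u_{j+1}`, `u' = u_j`, `x' = x_j = x + u'`:
`E_j - E_{j+1} = (u'² - u²)/2 - (𝒦 (x + u') - 𝒦 x) = e u' - (K + e)²/2 - (𝒦 (x+u') - 𝒦 x - K x u')`,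
and `u' ≤ 2u + 2K`, `u' ≤ 4x` (because `u ≤ x`), so (constants `A` depending on `R` only)
`|E_j - E_{j+1}| ≤ A (u³ + x^{2m} + x^{m-1} u²)`.
Sum over `i > j` (`E_i → 0`): `∑ u_i³ ≤ U² x_j`, `∑ x_i^{m-1} u_i² ≤ x_j^{m-1} U x_j`, and
`∑ x_i^{2m} ≤ x_j^m ∑ x_i^m ≤ A x_j^m ∑ K (x_i) ≤ A' x_j^m U` because
`∑_{i > j} K (x_i) ≤ 2 (u_j + C ∑ u_i²) ≤ 2 (U + C U x_j)` (telescope `u_{i-1} - u_i = K (x_i) + e_i`).  So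
`|E_j| ≤ A'' (U² x_0 + x_0^m U)` for all `j ≥ 0`.  At the `j` where `u_j = U`:
`U²/2 ≤ 𝒦 (x_0) + A'' (U² x_0 + x_0^m U)`, hence `U² ≤ A x_0^{m+1}` for small `x_0`
(`x_0^m U ≤ ε U² + x_0^{2m}/(4ε)`, `2m ≥ m + 1`). -/
def S_q2 : Prop := ∀ (G : ℂ × ℂ → ℂ × ℂ) (a δ C : ℝ) (R : ℂ × ℂ → ℂ) (Ψ : ℂ × ℂ → ℂ × ℂ)
  (m : ℕ) (κ : ℝ), Loc G a δ C R Ψ → KPar R δ C m κ →
  ∃ d > 0, ∃ A > 0, ∀ ξ, BO R ξ → ξ 0 < d → (ξ 0 - ξ 1) ^ 2 ≤ A * ξ 0 ^ (m + 1)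

/-- **mo** (monotonicity of `R` in `x`).
PROOF.  `R (x, u) = u + K x + e (x, u)`, `|e (x, u)| ≤ C |u| (|u| + |K x|)` for complex `x`.  For real
`0 < y < d`: by Cauchy's estimate on the circle `|ζ - y| = y/2`, `|∂_x e (y, u)| ≤ (2/y) C u (u + A₁ y^m)`.
If `u² ≤ A x^(m+1) ≤ A y^(m+1)`, this is `≤ A₂ y^m + A₂ y^{(m+1)/2 + m - 1}`, and `K' y ≥ κ m y^{m-1}/2` for
small `y` (Cauchy's estimate for `K x - κ x^m`).  So `∂_x R (y, u) > 0` for `x ≤ y < d`. -/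
def S_mo : Prop := ∀ (G : ℂ × ℂ → ℂ × ℂ) (a δ C : ℝ) (R : ℂ × ℂ → ℂ) (Ψ : ℂ × ℂ → ℂ × ℂ)
  (m : ℕ) (κ : ℝ), Loc G a δ C R Ψ → KPar R δ C m κ → ∀ A > 0, ∃ d > 0, ∀ x y u : ℝ,
  0 < x → x ≤ y → y < d → 0 < u → u < d → u ^ 2 ≤ A * x ^ (m + 1) →
  (R ((x : ℂ), (u : ℂ))).re ≤ (R ((y : ℂ), (u : ℂ))).re

/-- **p0** (the functions `chi` and `om`).  On `Wd 0` (which contains all `Wd C`, `C ≥ 0`) `-w` is in the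
sector `|arg| < 3π/4`. -/
def S_p0 : Prop := ∀ (m : ℕ) (κ : ℝ), 2 ≤ m → 0 < κ →
  0 < nu m ∧ 0 < cc m κ ∧
  (∀ w ∈ Wd 0, HasDerivAt (chi m κ) (om m κ w) w) ∧
  DifferentiableOn ℂ (om m κ) (Wd 0) ∧
  (∀ w : ℂ, w ≠ 0 → chi m κ w ≠ 0 ∧ om m κ w ≠ 0 ∧ ‖chi m κ w‖ = (cc m κ * ‖w‖) ^ (-(1 / nu m)) ∧
    ‖om m κ w‖ = (cc m κ * ‖w‖) ^ (-(1 / nu m)) / (nu m * ‖w‖) ∧
    chi m κ w ^ (m - 1) * ((cc m κ : ℂ) * w) ^ 2 = 1 ∧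
    om m κ w ^ 2 = ((2 * κ / (m + 1) : ℝ) : ℂ) * chi m κ w ^ (m + 1)) ∧
  (∀ w : ℝ, w < 0 → ∃ x : ℝ, 0 < x ∧ chi m κ (w : ℂ) = x) ∧
  (∀ w v : ℝ, w < v → v < 0 → (chi m κ (w : ℂ)).re < (chi m κ (v : ℂ)).re) ∧
  (∀ x : ℝ, 0 < x → ∃ w : ℝ, w < 0 ∧ chi m κ (w : ℂ) = x) ∧
  (∀ w ∈ Wd 0, ∀ b : ℂ, ‖b‖ ≤ 1 / (4 * (1 + nu m)) →
    chi m κ (w * Complex.exp (-(nu m : ℂ) * Complex.log (1 + b))) = chi m κ w * (1 + b)) ∧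
  (∀ w ∈ Wd 0, ∀ w' ∈ Wd 0, ∀ s s' : ℂ, ‖s‖ ≤ 1 / 8 → ‖s'‖ ≤ 1 / 8 → chi m κ w = chi m κ w' →
    om m κ w * (1 + s) = om m κ w' * (1 + s') → w = w')

/-- The link between the map `(W, S)` and `R`. -/
def Link (R : ℂ × ℂ → ℂ) (δ C : ℝ) (m : ℕ) (κ : ℝ) (W S : ℂ × ℂ → ℂ) : Prop :=
  ∀ w ∈ Wd C, ∀ s : ℂ, ‖s‖ < 1 / 2 →
    (chi m κ w, om m κ w * (1 + s)) ∈ bid δ ∧
    (chi m κ w + R (chi m κ w, om m κ w * (1 + s)), R (chi m κ w, om m κ w * (1 + s))) ∈ bid δ ∧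
    chi m κ (W (w, s)) = chi m κ w + R (chi m κ w, om m κ w * (1 + s)) ∧
    om m κ (W (w, s)) * (1 + S (w, s)) = R (chi m κ w, om m κ w * (1 + s))

/-- **tb** (the tube estimates).
PROOF.  `σ = min (1/2) (1/ν)`.  For `w ∈ Wd C₁`, `|s| < 1/2`, put `x = χ(w)`, `u = ω(w)(1 + s)`,
`K = R (x, 0)`, `e = R (x, u) - u - K`, `R = R (x, u)`.  With constants `A` not depending on `w, s`:
`|x| = (c|w|)^{-1/ν} ≤ A |w|^{-σ}`, `|x|^{m-1} = 1/(c|w|)²`, `|u| ≤ A |x|/|w|`, `|K| ≤ A |x|/|w|²`,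
`|e| ≤ A |x|²/|w|²`.  `b = R/x` satisfies `b = (1 + s)/(ν (-w)) + O(|w|^{-2})`, `|b| ≤ A/|w|`.
`W = w exp (-ν log (1 + b)) = w (1 - ν b + O(b²)) = w + (1 + s) + O(1/|w|)`, and
`χ(W) = x (1 + b) = x + R` by `S_p0`.  `S = R/ω(W) - 1`, `ω(W) = x (1 + b)/(ν (-W))`, so
`1 + S = b ν (-W)/(1 + b) = (b ν (-w)) (W/w)/(1 + b) = (1 + s) + O(1/|w|)`.
`E (w, s) = u²/2 - 𝒦 (x)`, `𝒦` the primitive of `K` in the disc with `𝒦 0 = 0`.  `E (W, S)` is the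
same expression at `x + R`, `R` (if `(W, S)` is in the domain; in any case by the link), so
`E (W, S) - E (w, s) = (R² - u²)/2 - (𝒦 (x + R) - 𝒦 x)
= e R - (K + e)²/2 - (𝒦 (x + R) - 𝒦 x - K R)`, of modulus
`≤ A (|x|²/|w|²)(|x|/|w| + 1/|w|²) ≤ A |ω w|² |w|^{-1-σ}` (`|K'| ≤ A |x|^{m-1} = O(|w|^{-2})` near `x`).
`2E/ω² - ((1+s)² - 1) = 1 - 2𝒦(x)/ω²` and `ω² = (2κ/(m+1)) x^{m+1}`,
`𝒦(x) = κ x^{m+1}/(m+1) + O(|x|^{m+2})`: it is `O(|x|) = O(|w|^{-σ})`.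
`o1`: `|ω w| = c' |w|^{-1-1/ν}`.  Real: `χ` is real on the negative reals, `W` is real there. -/
def S_tb : Prop := S_p0 → ∀ (G : ℂ × ℂ → ℂ × ℂ) (a δ C : ℝ) (R : ℂ × ℂ → ℂ)
  (Ψ : ℂ × ℂ → ℂ × ℂ) (m : ℕ) (κ : ℝ), Loc G a δ C R Ψ → KPar R δ C m κ →
  ∃ (C₁ A σ : ℝ) (W S E : ℂ × ℂ → ℂ), Tube C₁ A σ (om m κ) W S E ∧ Link R δ C₁ m κ W S

/-- **wd** (geometry of `Wd C`).  PROOFS are direct: `w + v ∈ Wd C` because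
`Re (w + v) + C < |Im w| + Re v ≤ |Im (w + v)| + |Im v| + Re v` and
`|Im v| + Re v ≤ -1 + √2 |v + 1| < 0`.  Third line (`v = -i + …`): distinguish `Re w ≤ 0` and
`Re w > 0`, `|Im w| > Re w` (then the cases `n ≤ |Im w|`, `|Im w| < n < 3|Im w|`, `n ≥ 3|Im w|`). -/
def S_wd : Prop := ∀ C : ℝ, 0 ≤ C →
  IsOpen (Wd C) ∧ IsPreconnected (Wd C) ∧
  (∀ w ∈ Wd C, ∀ v : ℂ, ‖v + 1‖ ≤ 7 / 10 → w + v ∈ Wd C) ∧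
  (∀ w ∈ Wd C, ∀ v : ℂ, ∀ n : ℕ, ‖v + n‖ ≤ n / 4 → w + v ∈ Wd C ∧ (‖w‖ + n) / 20 ≤ ‖w + v‖) ∧
  (∀ w ∈ Wd C, C ≤ 2 * ‖w‖ ∧ 0 < ‖w‖) ∧
  (∀ w : ℝ, (w : ℂ) ∈ Wd C ↔ w < -C)

/-- **iv** (inverse of `z ↦ z + 1 + b z` on `Wd C`).
PROOF.  For `w ∈ Wd C` the ball of radius `7/10` around `w - 1` is in `Wd C`, so on the closed ball of radius
`1/4` around `w - 1` Cauchy's estimate gives `|b'| ≤ (1/7)/(9/20) < 1/3`.  `z ↦ w - 1 - b z` maps this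
closed ball into the ball of radius `1/7` and is a contraction; `B w` is its fixed point, the uniform limit
(with the rate `3^{-n}`) of the holomorphic functions `B_0 w = w - 1`, `B_{n+1} w = w - 1 - b (B_n w)`, so
holomorphic.  Real on the reals because the iterates are. -/
def S_iv : Prop := S_wd → ∀ (C : ℝ) (b : ℂ → ℂ), 0 ≤ C → DifferentiableOn ℂ b (Wd C) →
  (∀ w ∈ Wd C, ‖b w‖ ≤ 1 / 7) →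
  ∃ B : ℂ → ℂ, DifferentiableOn ℂ B (Wd C) ∧
    (∀ w ∈ Wd C, B w ∈ Wd C ∧ ‖B w - (w - 1)‖ ≤ 1 / 7 ∧ B w + 1 + b (B w) = w) ∧
    (∀ w ∈ Wd C, ∀ z ∈ Wd C, ‖z - (w - 1)‖ ≤ 1 / 4 → z + 1 + b z = w → z = B w) ∧
    ((∀ w : ℝ, (w : ℂ) ∈ Wd C → (b w).im = 0) → ∀ w : ℝ, (w : ℂ) ∈ Wd C → (B w).im = 0)

/-- **gt** (the iterated graph transform).
PROOF.  Choose `C' ≥ C` large.  Induction on `n` (construct `s n` holomorphic on `Wd C'` with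
`|s n| ≤ 1/8`).  Given `s n`, let `b w = W (w, s n w) - w - 1`; `|b| ≤ 1/8 + A/|w| ≤ 1/7`; `B n` is the
inverse from `S_iv`; `s (n+1) w = S (B n w, s n (B n w))`, `|s (n+1)| ≤ 1/8 + A/|w| ≤ 1/4`.
Bound: fix `w`, let `w_0 = w`, `w_{i+1} = B (n-i) (w_i)`, `τ_i = s (n+1-i) (w_i)` for
`0 ≤ i ≤ n + 1`, so `(W, S)(w_{i+1}, τ_{i+1}) = (w_i, τ_i)`, `τ_{n+1} = 0`.  `|w_i - (w - i)| ≤ i/7`, so
`|w_i| ≥ (|w| + i)/20` (`S_wd`) and `|ω(w_i)| ≤ A |ω(w)|` (`o1`).  By `e1`, `e2`: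
`|E (w_0, τ_0)| ≤ |E (w_{n+1}, 0)| + ∑_{i=1}^{n+1} A |ω(w_i)|² |w_i|^{-1-σ}
≤ A³ |ω(w)|² ((|w|/20)^{-σ} + ∑_{i ≥ 1} ((|w| + i)/20)^{-1-σ}) ≤ A' |ω(w)|² |w|^{-σ}`
(`∑_{i≥1} (|w|+i)^{-1-σ} ≤ |w|^{-σ}/σ`).  So by `e2` `|(1+τ_0)² - 1| ≤ M |w|^{-σ}` with `M` independent of
`n`, `C'`, `w`, and `|τ_0| ≤ |τ_0| |2 + τ_0|` as `|τ_0| ≤ 1/4`.  So `|s (n+1) w| ≤ M |w|^{-σ} ≤ 1/8` if
`C'` is large. -/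
def S_gt : Prop := S_wd → S_iv → ∀ (C A σ : ℝ) (o : ℂ → ℂ) (W S E : ℂ × ℂ → ℂ),
  Tube C A σ o W S E →
  ∃ (C' M : ℝ) (s B : ℕ → ℂ → ℂ), C ≤ C' ∧ 0 < M ∧ GT C' M σ W S s B

/-- **vi** (Vitali's theorem, the needed case).
PROOF.  The sequence is locally equicontinuous on `U` (Cauchy), so by Arzelà-Ascoli every subsequence has
a locally uniformly convergent subsequence (or: use Taylor coefficients at a point of the interval and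
propagate along chains of discs); all limits are holomorphic and agree on the interval, so they are
equal by the identity theorem. -/
def S_vi : Prop := ∀ (U : Set ℂ) (f : ℕ → ℂ → ℂ) (M : ℝ) (x y : ℝ), IsOpen U → IsPreconnected U →
  (∀ n, DifferentiableOn ℂ (f n) U) → (∀ n, ∀ w ∈ U, ‖f n w‖ ≤ M) → x < y →
  (∀ t : ℝ, x < t → t < y → (t : ℂ) ∈ U ∧ ∃ l, Tendsto (fun n => f n t) atTop (𝓝 l)) →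
  ∃ g : ℂ → ℂ, DifferentiableOn ℂ g U ∧ ∀ w ∈ U, Tendsto (fun n => f n w) atTop (𝓝 (g w))

/-- The invariant curve `s = g w`, real on the reals, containing the real backward orbits. -/
def Curve (R : ℂ × ℂ → ℂ) (m : ℕ) (κ C M σ : ℝ) (g : ℂ → ℂ) : Prop :=
  DifferentiableOn ℂ g (Wd C) ∧ (∀ w ∈ Wd C, ‖g w‖ ≤ M * ‖w‖ ^ (-σ) ∧ ‖g w‖ ≤ 1 / 8) ∧
  (∀ w : ℝ, (w : ℂ) ∈ Wd C → (g w).im = 0) ∧
  ∀ w : ℝ, (w : ℂ) ∈ Wd C → ∀ ξ, BO R ξ → chi m κ (w : ℂ) = ξ 0 →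
    ((ξ 0 - ξ 1 : ℝ) : ℂ) = om m κ w * (1 + g w)

/-- **cv** (the iterates converge to the curve of the real orbits).
PROOF.  Take `C₂ ≥ C'` so large that everything below is small.  Let `w < -C₂` be real, `ξ` the backward orbit
with `ξ 0 = χ(w)`.  For `n ≥ 1` let `w_0 = w`, `w_{i+1} = B (n-1-i) (w_i)` (`0 ≤ i < n`),
`τ_i = s (n-i) (w_i)`; `w_i` real, `≤ w - 3i/4`.  `η i = χ(w_i)` for `0 ≤ i ≤ n` and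
`η (n+1) = χ(w_n) - ω(w_n)`.  By `Link` and `GT`: `ω(w_i)(1 + τ_i) = R (χ(w_{i+1}), ω(w_{i+1})(1 + τ_{i+1}))`
`= χ(w_i) - χ(w_{i+1})`, so `η i - η (i+1) = ω(w_i)(1 + τ_i)` for `i ≤ n` and
`η i - η (i+1) = R (η (i+1), η (i+1) - η (i+2))` for `i < n`; these are positive reals, `η > 0`
(`ω(w_n) < χ(w_n)` for large `|w|`).  `(η (i+1) - η (i+2))² ≤ 4 ω(w_{i+1})² = 4 (2κ/(m+1)) η (i+1)^{m+1}`,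
and `S_q2` gives the same kind of bound for `ξ`.  `S_cm` with `r x u = Re R (x, u)`,
`Q x u = (u² ≤ A x^{m+1})` (`S_mo`, `Loc.lip`): `|ξ 1 - η 1| ≤ |ξ (n+1) - η (n+1)| ≤ ξ (n+1) + η (n)`,
which tends to `0` as `n → ∞` (`η n = χ(w_n)`, `w_n ≤ w - 3n/4`).  As
`ω(w)(1 + s n w) = η 0 - η 1 → ξ 0 - ξ 1`, the sequence `s n w` converges for all real `w < -C₂`.  By
`S_vi` on `Wd C₂` the `s n` converge on `Wd C₂` to a holomorphic `g`, with the bounds of `GT`, and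
`ω(w)(1 + g w) = ξ 0 - ξ 1` for real `w`. -/
def S_cv : Prop := S_q2 → S_mo → S_p0 → S_wd → S_vi → S_cm →
  ∀ (G : ℂ × ℂ → ℂ × ℂ) (a δ C : ℝ) (R : ℂ × ℂ → ℂ) (Ψ : ℂ × ℂ → ℂ × ℂ) (m : ℕ) (κ : ℝ)
    (C₁ A σ C' M : ℝ) (W S E : ℂ × ℂ → ℂ) (s B : ℕ → ℂ → ℂ),
  Loc G a δ C R Ψ → KPar R δ C m κ → Tube C₁ A σ (om m κ) W S E → Link R δ C₁ m κ W S →
  C₁ ≤ C' → 0 < M → GT C' M σ W S s B →
  (∃ d > 0, ∀ x : ℝ, 0 < x → x < d → ∃ ξ, BO R ξ ∧ ξ 0 = x) →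
  ∃ (C₂ : ℝ) (g : ℂ → ℂ), C' ≤ C₂ ∧ Curve R m κ C₂ M σ g

/-- **ic** (the curve is invariant).
PROOF.  Take `C₃ = C₂ + C''` large; for `w ∈ Wd C₃`, `f w = W (w, g w)` satisfies
`|f w - w - 1| ≤ 1/8 + A/|w| ≤ 1/4`, so `f w ∈ Wd C₂`.  For real `w < -C₃` let `ξ` be a backward orbit with
`ξ 0 = χ(w)`, so `ξ 0 - ξ 1 = ω(w)(1 + g w) =: u`.  With `x' = ξ 0 + R (ξ 0, u) = χ(f w)` (Link) the sequence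
`x', ξ 0, ξ 1, …` is a backward orbit (`R > 0`), so `x' - ξ 0 = ω(f w)(1 + g (f w))`, and
`x' - ξ 0 = R = ω(f w)(1 + S (w, g w))`; `f w` is real and negative.  So `S (w, g w) = g (f w)` for real
`w`, hence on `Wd C₃` by the identity theorem (`Wd C₃` is preconnected and open). -/
def S_ic : Prop := S_p0 → S_wd → ∀ (G : ℂ × ℂ → ℂ × ℂ) (a δ C : ℝ) (R : ℂ × ℂ → ℂ)
    (Ψ : ℂ × ℂ → ℂ × ℂ) (m : ℕ) (κ : ℝ) (C₁ A σ C₂ M : ℝ) (W S E : ℂ × ℂ → ℂ) (g : ℂ → ℂ),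
  Loc G a δ C R Ψ → KPar R δ C m κ → Tube C₁ A σ (om m κ) W S E → Link R δ C₁ m κ W S →
  C₁ ≤ C₂ → 0 < M → Curve R m κ C₂ M σ g →
  (∃ d > 0, ∀ x : ℝ, 0 < x → x < d → ∃ ξ, BO R ξ ∧ ξ 0 = x) →
  ∃ C₃ : ℝ, C₂ ≤ C₃ ∧ ∀ w ∈ Wd C₃, W (w, g w) ∈ Wd C₂ ∧ S (w, g w) = g (W (w, g w)) ∧
    ‖W (w, g w) - w - 1‖ ≤ 1 / 7

/-- **fa** (Fatou parametrisation of `f w = w + 1 + β w` on `Wd C`).
PROOF.  Enlarging `C` we may assume `|β| ≤ 1/7`.  (`σ ≤ 1/2`.)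
(0) Let `K₀ = {w | Re w + 2C + 1 < |Im w|/2}`.  There is `c₀ > 0` with `ball w (c₀ |w|) ⊆ Wd C` for
`w ∈ K₀`, so `|β' w| ≤ M₁ |w|^{-1-σ}` on `K₀` (Cauchy).
(1) Reference orbit: `a_0` real very negative, `a_{i+1} = B a_i` (`S_iv`), real, `a_i ≤ a_0 - 6i/7`,
`f a_{i+1} = a_i`.
(2) For `Re t < -C'` define `v_{n,j} = f^j (a_n + t)`, `0 ≤ j ≤ n`, `D_{n,j} = v_{n,j} - a_{n-j} - t`.
Claim `|D_{n,j}| ≤ |t|/4` (in particular `v_{n,j} ∈ K₀`, and `|v_{n,j}| ≥ c (|a_{n-j}| + |t|)`).  Induction: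
`D_{n,j+1} - D_{n,j} = β(v_{n,j}) - β(a_{n-j})`, of modulus `≤ M₂ |a_{n-j}|^{-σ}` always and
`≤ M₂ |t| |a_{n-j}|^{-1-σ}` if `|a_{n-j}| ≥ 4|t|` (segment in `K₀`, (0)).  The sum over all `j` is
`≤ M₃ |t|^{1-σ}`, `≤ |t|/4` if `|t| ≥ C'`.
(3) `ϖ_n t = v_{n,n} = f^n (a_n + t)`.  `ϖ_{n+1} t - ϖ_n t = f^n (f (a_{n+1} + t)) - f^n (a_n + t)` and
`f (a_{n+1} + t) - (a_n + t) = β(a_{n+1} + t) - β(a_{n+1})`, of modulus `≤ M₂ |t| |a_{n+1}|^{-1-σ}` for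
large `n`; two orbits which start close to each other near `a_n + t` separate at most by the factor
`∏ (1 + M₁ |v|^{-1-σ}) ≤ M₄`.  So `ϖ_n` converges, locally uniformly on `Re t < -C'`, to a holomorphic
`ϖ`, `|ϖ t - a_0 - t| ≤ M₃ |t|^{1-σ} ≤ |t|/4`, `ϖ t ∈ Wd C`.
(4) `f (ϖ_n (t - 1)) = f^{n+1} (a_n + t - 1)` and `ϖ_{n+1} t = f^{n+1} (a_{n+1} + t)`; the starting points
differ by `a_{n+1} + 1 - a_n = -β(a_{n+1}) → 0`.  So `ϖ t = f (ϖ (t - 1))`.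
(5) On the sector `Re t < -C''`, `|Im t| < -Re t/2` (convex) the ball of radius `|t|/8` around `t` is in
`Re < -C'`, so the derivative of `ϖ t - t` is `≤ M₅ |t|^{-σ} ≤ 1/2`.  (Rename `C''` as `C'`.)
(6) Real backward orbits `w_n` of `f`, `w_n → -∞`: `t_n = w_n - a_n` satisfies
`|t_{n+1} - t_n| = |β(w_{n+1}) - β(a_{n+1})| ≤ M₁ |t_{n+1}| (min (|w_{n+1}|, |a_{n+1}|))^{-1-σ}` and
`w_{n+1} ≤ w_n - 6/7` for large `n`, so `t_n` is bounded and converges to some `t'`.  Take `N` with `t' - N < -C' - 1`.  The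
starting points `a_n + t' - N` and `w_{n+N}` satisfy `w_{n+N} - (a_n + t' - N) → 0` as `n → ∞`
(`a_{n+N} - a_n + N → 0`), so `ϖ (t' - N) = lim f^n (a_n + t' - N) = lim f^n (w_{n+N}) = w_N`. -/
def S_fa : Prop := S_wd → S_iv → ∀ (C M σ : ℝ) (β : ℂ → ℂ), 0 ≤ C → 0 < M → 0 < σ → σ ≤ 1 / 2 →
  DifferentiableOn ℂ β (Wd C) → (∀ w ∈ Wd C, ‖β w‖ ≤ M * ‖w‖ ^ (-σ)) →
  (∀ w : ℝ, (w : ℂ) ∈ Wd C → (β w).im = 0) →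
  ∃ (C' : ℝ) (ϖ : ℂ → ℂ), 1 ≤ C' ∧ DifferentiableOn ℂ ϖ {t | t.re < -C'} ∧
    (∀ t : ℂ, t.re < -C' → ϖ t ∈ Wd C ∧ ϖ t = ϖ (t - 1) + 1 + β (ϖ (t - 1))) ∧
    (∀ t t' : ℂ, t.re < -C' → |t.im| < -t.re / 2 → t'.re < -C' → |t'.im| < -t'.re / 2 →
      ‖ϖ t - ϖ t' - (t - t')‖ ≤ 1 / 2 * ‖t - t'‖) ∧
    ∀ w : ℕ → ℝ, (∀ n, (w n : ℂ) ∈ Wd C ∧ (w n : ℂ) = w (n + 1) + 1 + β (w (n + 1))) →
      Tendsto w atTop atBot →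
      ∃ (t' : ℝ) (N : ℕ), t' - N < -C' ∧ ϖ ((t' - N : ℝ) : ℂ) = w N

/-- **pa** (the parabolic endpoint).
PROOF.  `S_tb`, `S_gt`, `S_cv`, `S_ic` give `W, S`, the curve `g` on `Wd C₂`, and `C₃`.
`f w = W (w, g w) = w + 1 + β w` on `Wd C₃`, `|β w| ≤ M |w|^{-σ} + A/|w| ≤ M' |w|^{-σ}`, real on the reals;
`S_fa` (on `Wd C₃`) gives `ϖ` and `C'`.  `φ₀ t = Ψ (χ(ϖ t), ω(ϖ t)(1 + g (ϖ t)))`, holomorphic on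
`Re t < -C'`.  With `w = ϖ (t - 1)`: `ϖ t = f w = W (w, g w)`, `g (ϖ t) = S (w, g w)`; `Link` and
`Loc.eqn` at `(χ(w), ω(w)(1 + g w))` give `G (φ₀ (t - 1)) = φ₀ t`.  On the sector `ϖ` is injective with
`ϖ' ≠ 0`; `φ₀` is injective there by `Loc.inj` and the last line of `S_p0`; its derivative is not `0` because
the first coordinate is `a + χ(ϖ t)`, `χ' = ω ≠ 0`.  `φ₀` is bounded: `C₃` may be enlarged beforehand so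
that the arguments `(χ(w), ω(w)(1 + g w))`, `w ∈ Wd C₃`, stay in the closed bidisc of radius `δ/2`
(`|w| ≥ C₃/2` on `Wd C₃`), a compact set on which `Ψ` is continuous.  `S_ep` gives `φ`.
Let `ξ` be a backward orbit with small `ξ 0`; every tail is a backward orbit.  `ξ n = χ(w_n)` with real
`w_n < -C₃`, and by `Curve` `ξ n - ξ (n+1) = ω(w_n)(1 + g w_n)`.  By `Link` `χ(f w_{n+1}) = ξ n`, `f w_{n+1}`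
real negative, so `f w_{n+1} = w_n` (`χ` is injective on the negative reals); `ξ n → 0` gives
`w_n → -∞`.  `S_fa` gives
`ϖ (t' - N) = w_N`, so `Ψ (ξ N, ξ N - ξ (N+1)) = φ (t' - N)` and
`Ψ (ξ 0, ξ 0 - ξ 1) = G^N (…) = φ t'` (`Loc.eqn` for the orbit). -/
def S_pa : Prop := S_p0 → S_tb → S_wd → S_iv → S_gt → S_ep → S_fa →
  (∀ (G : ℂ × ℂ → ℂ × ℂ) (a δ C : ℝ) (R : ℂ × ℂ → ℂ) (Ψ : ℂ × ℂ → ℂ × ℂ) (m : ℕ) (κ : ℝ)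
    (C₁ A σ C' M : ℝ) (W S E : ℂ × ℂ → ℂ) (s B : ℕ → ℂ → ℂ),
    Loc G a δ C R Ψ → KPar R δ C m κ → Tube C₁ A σ (om m κ) W S E → Link R δ C₁ m κ W S →
    C₁ ≤ C' → 0 < M → GT C' M σ W S s B →
    (∃ d > 0, ∀ x : ℝ, 0 < x → x < d → ∃ ξ, BO R ξ ∧ ξ 0 = x) →
    ∃ (C₂ : ℝ) (g : ℂ → ℂ), C' ≤ C₂ ∧ Curve R m κ C₂ M σ g) →
  (∀ (G : ℂ × ℂ → ℂ × ℂ) (a δ C : ℝ) (R : ℂ × ℂ → ℂ)
    (Ψ : ℂ × ℂ → ℂ × ℂ) (m : ℕ) (κ : ℝ) (C₁ A σ C₂ M : ℝ) (W S E : ℂ × ℂ → ℂ) (g : ℂ → ℂ),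
    Loc G a δ C R Ψ → KPar R δ C m κ → Tube C₁ A σ (om m κ) W S E → Link R δ C₁ m κ W S →
    C₁ ≤ C₂ → 0 < M → Curve R m κ C₂ M σ g →
    (∃ d > 0, ∀ x : ℝ, 0 < x → x < d → ∃ ξ, BO R ξ ∧ ξ 0 = x) →
    ∃ C₃ : ℝ, C₂ ≤ C₃ ∧ ∀ w ∈ Wd C₃, W (w, g w) ∈ Wd C₂ ∧ S (w, g w) = g (W (w, g w)) ∧
      ‖W (w, g w) - w - 1‖ ≤ 1 / 7) →
  ∀ (G : ℂ × ℂ → ℂ × ℂ) (a δ C : ℝ) (R : ℂ × ℂ → ℂ) (Ψ : ℂ × ℂ → ℂ × ℂ) (m : ℕ) (κ : ℝ),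
    Loc G a δ C R Ψ → KPar R δ C m κ →
    (∃ d > 0, ∀ x : ℝ, 0 < x → x < d → ∃ ξ, BO R ξ ∧ ξ 0 = x) →
    ∃ φ, UPar G φ ∧ ∃ d > 0, ∀ ξ, BO R ξ → ξ 0 < d →
      Ψ ((ξ 0 : ℂ), ((ξ 0 - ξ 1 : ℝ) : ℂ)) ∈ Set.range φ

/-- **U** (assembly of Theorem U).
PROOF.  `S_au` and `S_tw` give the hypotheses of `S_lo` for `G = GC k q p`, `G' = GCi k q p`, at
`P = (a, h a - a)`: `R, Ψ`.  `R (·, 0)` is not identically zero: otherwise `G (Ψ (x, 0)) = Ψ (x, 0)` for all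
small `x` (`Loc.eqn`), a set of points of `PerC k q p 0` accumulating at `P`, against `T_is`.  `S_bo` gives
backward orbits for all small `x > 0` which correspond to the points of the circle.  `S_ty`: in the first
case the second hypothesis (hyperbolic), in the second case the third one (parabolic). -/
def S_U : Prop := T_is → S_au → S_tw → S_lo → S_bo → S_ty →
  (∀ (G : ℂ × ℂ → ℂ × ℂ) (a δ C : ℝ) (R : ℂ × ℂ → ℂ)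
    (Ψ : ℂ × ℂ → ℂ × ℂ), Loc G a δ C R Ψ → ∀ κ : ℝ, 0 < κ →
    HasDerivAt (fun x : ℂ => R (x, 0)) (κ : ℂ) 0 →
    ∃ φ, UPar G φ ∧ ∃ d > 0, ∀ ξ, BO R ξ → ξ 0 < d →
      Ψ ((ξ 0 : ℂ), ((ξ 0 - ξ 1 : ℝ) : ℂ)) ∈ Set.range φ) →
  (∀ (G : ℂ × ℂ → ℂ × ℂ) (a δ C : ℝ) (R : ℂ × ℂ → ℂ) (Ψ : ℂ × ℂ → ℂ × ℂ) (m : ℕ) (κ : ℝ),
    Loc G a δ C R Ψ → KPar R δ C m κ →
    (∃ d > 0, ∀ x : ℝ, 0 < x → x < d → ∃ ξ, BO R ξ ∧ ξ 0 = x) →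
    ∃ φ, UPar G φ ∧ ∃ d > 0, ∀ ξ, BO R ξ → ξ 0 < d →
      Ψ ((ξ 0 : ℂ), ((ξ 0 - ξ 1 : ℝ) : ℂ)) ∈ Set.range φ) → T_U

end Pool.Agent.MP_2f2443_an.RC
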